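import Mathlib

/-!
# Representable implication semigroups do not form a variety

The class `R` of algebras `(A, →, ;)` that embed into some `𝔖(T) = (℘(T), →, ;)`, `T` a transitive
relation, is not closed under homomorphic images; so it is neither a variety nor the class of all
models of a set of equations.  Even a homomorphic image of a finite algebra represented on a set
with 11 points need not be representable over any set.
-/

namespace Pool.Agent.Results.MP_390e14_lc.NotAVariety

universe u v w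

/-! ## Definitions used in the statement -/

/-- An algebra of the signature `(→, ;)` on the carrier `A`. -/
structure Alg (A : Type u) where
  /-- the operation `→` -/
  imp : A → A → A
  /-- the operation `;` -/
  comp : A → A → A

/-- Homomorphisms of algebras of the signature `(→, ;)`. -/
structure IsHom {A : Type u} {B : Type v} (S : Alg A) (S' : Alg B) (f : A → B) : Prop where
  imp : ∀ a b, f (S.imp a b) = S'.imp (f a) (f b)
  comp : ∀ a b, f (S.comp a b) = S'.comp (f a) (f b)

/-- `T ⊆ X × X` is transitive. -/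
def IsTransRel {X : Type w} (T : Set (X × X)) : Prop :=
  ∀ x y z, (x, y) ∈ T → (y, z) ∈ T → (x, z) ∈ T

/-- The full implication semigroup `𝔖(T)`: subsets of `T` with `a → b = (T ∖ a) ∪ b` and
relational composition. -/
def full {X : Type w} (T : Set (X × X)) (hT : IsTransRel T) :
    Alg {a : Set (X × X) // a ⊆ T} where
  imp a b := ⟨(T \ a.1) ∪ b.1, Set.union_subset Set.sdiff_subset b.2⟩
  comp a b := ⟨{p | ∃ y, (p.1, y) ∈ a.1 ∧ (y, p.2) ∈ b.1}, by
    rintro ⟨x, z⟩ ⟨y, h1, h2⟩
    exact hT x y z (a.2 h1) (b.2 h2)⟩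

/-- Representable: the algebra embeds into `𝔖(T)` for a transitive relation `T` on a set `X`. -/
def Representable {A : Type u} (S : Alg A) : Prop :=
  ∃ (X : Type w) (T : Set (X × X)) (hT : IsTransRel T) (f : A → {a : Set (X × X) // a ⊆ T}),
    Function.Injective f ∧ IsHom S (full T hT) f

/-- Finitely representable: the same with `X` finite. -/
def FinRepresentable {A : Type u} (S : Alg A) : Prop :=
  ∃ (X : Type w) (T : Set (X × X)) (hT : IsTransRel T) (f : A → {a : Set (X × X) // a ⊆ T}),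
    Finite X ∧ Function.Injective f ∧ IsHom S (full T hT) f

/-- Terms in the signature `(→, ;)` with variables indexed by `ℕ`. -/
inductive Tm
  | var : ℕ → Tm
  | imp : Tm → Tm → Tm
  | comp : Tm → Tm → Tm

/-- The value of a term in an algebra. -/
def Tm.eval {A : Type u} (S : Alg A) (v : ℕ → A) : Tm → A
  | .var n => v n
  | .imp s t => S.imp (s.eval S v) (t.eval S v)
  | .comp s t => S.comp (s.eval S v) (t.eval S v)

/-- `S` is a model of the set `E` of equations. -/
def Alg.Models {A : Type u} (S : Alg A) (E : Set (Tm × Tm)) : Prop :=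
  ∀ e ∈ E, ∀ v : ℕ → A, e.1.eval S v = e.2.eval S v

/-- The product of a family of algebras. -/
def prodAlg {ι : Type u} {A : ι → Type u} (S : ∀ i, Alg (A i)) : Alg (∀ i, A i) where
  imp a b := fun i => (S i).imp (a i) (b i)
  comp a b := fun i => (S i).comp (a i) (b i)

/-- A class of algebras is a variety: closed under homomorphic images, under subalgebras (stated
with injective homomorphisms), and under direct products. -/
structure IsVariety (K : ∀ A : Type u, Alg A → Prop) : Prop where
  image : ∀ (A B : Type u) (S : Alg A) (S' : Alg B) (h : A → B),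
    K A S → IsHom S S' h → Function.Surjective h → K B S'
  sub : ∀ (A B : Type u) (S : Alg A) (S' : Alg B) (h : A → B),
    K B S' → IsHom S S' h → Function.Injective h → K A S
  prod : ∀ (ι : Type u) (A : ι → Type u) (S : ∀ i, Alg (A i)),
    (∀ i, K (A i) (S i)) → K (∀ i, A i) (prodAlg S)

/-! ## The finite data

Points `0,…,10` are `l₁ l₂ x w z r₁ r₂ s₁ s₂ t₁ t₂`. Relations on them are coded as bit masks. -/

/-- pairs of points -/
abbrev P := Fin 11 × Fin 11

/-- the least element `g` -/
def gB (p : P) : Bool :=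
  Nat.testBit 1412649630686418529516424129547862144 (11 * p.1.val + p.2.val)

/-- the top element `T` of the first algebra -/
def tB (p : P) : Bool :=
  Nat.testBit 1412690225230693887849306993379239934 (11 * p.1.val + p.2.val)

/-- the top element `D = T ∖ {(x,z)}` of the image -/
def dB (p : P) : Bool :=
  Nat.testBit 1412690225230693887849306993312131070 (11 * p.1.val + p.2.val)

def G : Set P := {p | gB p = true}
def T : Set P := {p | tB p = true}
def D : Set P := {p | dB p = true}

theorem gB_dB : ∀ p : P, gB p = true → dB p = true := by decide +kernel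
theorem dB_tB : ∀ p : P, dB p = true → tB p = true := by decide +kernel
theorem gg : ∀ p : P, gB p = true → ∃ m, gB (p.1, m) = true ∧ gB (m, p.2) = true := by
  decide +kernel
theorem tt : ∀ i j k : Fin 11, tB (i, j) = true → tB (j, k) = true → tB (i, k) = true := by
  decide +kernel
theorem small : ∀ i j k : Fin 11, tB (i, j) = true → tB (j, k) = true →
    ¬ (dB (i, j) = true ∧ dB (j, k) = true) →
    ∃ m, gB (i, m) = true ∧ gB (m, k) = true := by
  decide +kernel

/-- carrier of the first algebra -/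
abbrev CA := {a : Set P // G ⊆ a ∧ a ⊆ T}
/-- carrier of the image -/
abbrev CQ := {a : Set P // G ⊆ a ∧ a ⊆ D}

/-- the first algebra, a subalgebra of `𝔖(T)` -/
def algA : Alg CA where
  imp a b := ⟨(T \ a.1) ∪ b.1, fun _ hp => Or.inr (b.2.1 hp), Set.union_subset Set.sdiff_subset b.2.2⟩
  comp a b := ⟨{p | ∃ y, (p.1, y) ∈ a.1 ∧ (y, p.2) ∈ b.1}, by
    intro p hp
    obtain ⟨m, h1, h2⟩ := gg p hp
    exact ⟨m, a.2.1 h1, b.2.1 h2⟩, by
    rintro ⟨x, z⟩ ⟨y, h1, h2⟩
    exact tt x y z (a.2.2 h1) (b.2.2 h2)⟩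

/-- the image -/
def algQ : Alg CQ where
  imp a b := ⟨(D \ a.1) ∪ b.1, fun _ hp => Or.inr (b.2.1 hp), Set.union_subset Set.sdiff_subset b.2.2⟩
  comp a b := ⟨{p | p ∈ D ∧ ∃ y, (p.1, y) ∈ a.1 ∧ (y, p.2) ∈ b.1}, by
    intro p hp
    obtain ⟨m, h1, h2⟩ := gg p hp
    exact ⟨gB_dB p hp, m, a.2.1 h1, b.2.1 h2⟩, fun p hp => hp.1⟩

/-- the homomorphism `a ↦ a ∩ D` -/
def hom (a : CA) : CQ :=
  ⟨a.1 ∩ D, fun p hp => ⟨a.2.1 hp, gB_dB p hp⟩, Set.inter_subset_right⟩

theorem hom_isHom : IsHom algA algQ hom where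
  imp a b := by
    apply Subtype.ext
    ext p
    simp only [hom, algA, algQ, Set.mem_inter_iff, Set.mem_union, Set.mem_sdiff]
    constructor
    · rintro ⟨h | h, hd⟩
      · exact Or.inl ⟨hd, fun h' => h.2 h'.1⟩
      · exact Or.inr ⟨h, hd⟩
    · rintro (⟨hd, h⟩ | ⟨h, hd⟩)
      · exact ⟨Or.inl ⟨dB_tB p hd, fun h' => h ⟨h', hd⟩⟩, hd⟩
      · exact ⟨Or.inr h, hd⟩
  comp a b := by
    apply Subtype.ext
    ext ⟨i, k⟩
    simp only [hom, algA, algQ, Set.mem_inter_iff, Set.mem_ofPred_eq]
    constructor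
    · rintro ⟨⟨m, h1, h2⟩, hd⟩
      refine ⟨hd, ?_⟩
      by_cases hdd : dB (i, m) = true ∧ dB (m, k) = true
      · exact ⟨m, ⟨h1, hdd.1⟩, ⟨h2, hdd.2⟩⟩
      · obtain ⟨m', h1', h2'⟩ := small i m k (a.2.2 h1) (b.2.2 h2) hdd
        exact ⟨m', ⟨a.2.1 h1', gB_dB _ h1'⟩, ⟨b.2.1 h2', gB_dB _ h2'⟩⟩
    · rintro ⟨hd, m, h1, h2⟩
      exact ⟨⟨m, h1.1, h2.1⟩, hd⟩

theorem hom_surj : Function.Surjective hom := by
  rintro ⟨q, h1, h2⟩
  refine ⟨⟨q, h1, fun p hp => dB_tB p (h2 hp)⟩, ?_⟩
  apply Subtype.ext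
  exact Set.inter_eq_left.mpr h2

theorem algA_rep : FinRepresentable.{0, 0} algA := by
  refine ⟨Fin 11, T, tt, fun a => ⟨a.1, a.2.2⟩, inferInstance, ?_, ?_⟩
  · intro a b hab
    apply Subtype.ext
    have h := congrArg Subtype.val hab
    exact h
  · constructor
    · intro a b; rfl
    · intro a b; rfl

/-! ## Labels -/

/-- `g` together with the label `o` -/
def barB (o : Option P) (p : P) : Bool := gB p || (o == some p)

/-- valid labels: none, or an edge of `D ∖ g` -/
def ok (o : Option P) : Bool :=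
  match o with
  | none => true
  | some p => dB p && !gB p

/-- `p ∈ bar o₁ ; bar o₂` -/
def compB (o₁ o₂ : Option P) (p : P) : Bool :=
  decide (∃ m : Fin 11, barB o₁ (p.1, m) = true ∧ barB o₂ (m, p.2) = true)

/-- the triangle rule -/
def triB (o₁ o₂ o₃ : Option P) : Bool :=
  match o₃ with
  | none => true
  | some p => compB o₁ o₂ p

/-- the element `g ∪ {o}` of the image -/
def bar (o : Option P) : CQ :=
  ⟨{p | barB o p = true ∧ dB p = true}, fun p hp => ⟨by
    have : gB p = true := hp
    simp [barB, this], gB_dB p hp⟩, fun _ hp => hp.2⟩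

section Rep

variable {X : Type w} {U : Set (X × X)} (hU : IsTransRel U)
  (f : CQ → {a : Set (X × X) // a ⊆ U}) (hf : IsHom algQ (full U hU) f)

/-- top element -/
def top : CQ := ⟨D, fun p hp => gB_dB p hp, subset_rfl⟩
/-- bottom element -/
def bot : CQ := ⟨G, subset_rfl, fun p hp => gB_dB p hp⟩

include hf

theorem f_imp (a b : CQ) (p : X × X) :
    p ∈ (f (algQ.imp a b)).1 ↔ (p ∈ U ∧ p ∉ (f a).1) ∨ p ∈ (f b).1 := by
  rw [hf.imp]; rfl

theorem f_comp (a b : CQ) (x z : X) :
    (x, z) ∈ (f (algQ.comp a b)).1 ↔ ∃ y, (x, y) ∈ (f a).1 ∧ (y, z) ∈ (f b).1 := by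
  rw [hf.comp]; rfl

theorem f_top (p : X × X) : p ∈ (f top).1 ↔ p ∈ U := by
  have h : top = algQ.imp top top := by
    apply Subtype.ext
    ext p
    simp only [top, algQ, Set.mem_union, Set.mem_sdiff]
    tauto
  rw [h, f_imp hU f hf]
  constructor
  · rintro (h | h)
    · exact h.1
    · exact (f top).2 h
  · intro h
    by_cases h' : p ∈ (f top).1
    · exact Or.inr h'
    · exact Or.inl ⟨h, h'⟩

/-- the union of two elements -/
def sup (a b : CQ) : CQ := ⟨a.1 ∪ b.1, fun _ hp => Or.inl (a.2.1 hp), Set.union_subset a.2.2 b.2.2⟩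

theorem f_sup (a b : CQ) (p : X × X) : p ∈ (f (sup a b)).1 ↔ p ∈ (f a).1 ∨ p ∈ (f b).1 := by
  have h : sup a b = algQ.imp (algQ.imp a b) b := by
    apply Subtype.ext
    ext p
    simp only [sup, algQ, Set.mem_union, Set.mem_sdiff]
    have := @a.2.2 p
    tauto
  rw [h, f_imp hU f hf, f_imp hU f hf]
  have := @(f a).2 p
  tauto

theorem f_mono {a b : CQ} (hab : a.1 ⊆ b.1) {p : X × X} (hp : p ∈ (f a).1) : p ∈ (f b).1 := by
  have h : sup a b = b := by
    apply Subtype.ext
    exact Set.union_eq_right.mpr hab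
  rw [← h, f_sup hU f hf]
  exact Or.inl hp

/-- `(x,y)` has label `o` -/
def Lab (x y : X) (o : Option P) : Prop :=
  ok o = true ∧ ∀ a : CQ, ((x, y) ∈ (f a).1 ↔ ∀ d, o = some d → d ∈ a.1)

theorem lab_exists {x y : X} (hxy : (x, y) ∈ U) : ∃ o, Lab f x y o := by
  classical
  by_cases h0 : (x, y) ∈ (f bot).1
  · refine ⟨none, rfl, fun a => ⟨fun _ d hd => by simp at hd, fun _ => ?_⟩⟩
    exact f_mono hU f hf (a := bot) (b := a) a.2.1 h0
  · have key : ∀ S : Finset P,
        (x, y) ∈ (f ⟨{p | p ∈ G ∨ (p ∈ S ∧ p ∈ D)}, fun p hp => Or.inl hp, by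
          rintro p (hp | hp)
          · exact gB_dB p hp
          · exact hp.2⟩).1 → ∃ d, (x, y) ∈ (f (bar (some d))).1 := by
      intro S
      induction S using Finset.induction_on with
      | empty =>
        intro h
        exact absurd (f_mono hU f hf (by
          rintro p (hp | hp)
          · exact hp
          · simp at hp) h) h0
      | insert d S hd ih =>
        intro h
        have h2 := f_mono hU f hf (b := sup ⟨{p | p ∈ G ∨ (p ∈ S ∧ p ∈ D)}, fun p hp => Or.inl hp, by
          rintro p (hp | hp)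
          · exact gB_dB p hp
          · exact hp.2⟩ (bar (some d))) (by
            rintro p (hp | ⟨hp, hpD⟩)
            · exact Or.inl (Or.inl hp)
            · rcases Finset.mem_insert.mp hp with rfl | hp
              · exact Or.inr ⟨by simp [barB], hpD⟩
              · exact Or.inl (Or.inr ⟨hp, hpD⟩)) h
        rcases (f_sup hU f hf _ _ _).mp h2 with h3 | h3
        · exact ih h3
        · exact ⟨d, h3⟩
    obtain ⟨d, hd⟩ := key Finset.univ (f_mono hU f hf (a := top) (by
      intro p hp
      exact Or.inr ⟨Finset.mem_univ _, hp⟩) ((f_top hU f hf _).mpr hxy))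
    have hdval : ok (some d) = true := by
      by_contra hcon
      apply h0
      refine f_mono hU f hf ?_ hd
      rintro p ⟨hp, hpD⟩
      simp only [ok, Bool.and_eq_true, Bool.not_eq_true', not_and, Bool.not_eq_false] at hcon
      simp only [barB, Bool.or_eq_true, beq_iff_eq, Option.some.injEq] at hp
      rcases hp with hp | rfl
      · exact hp
      · exact hcon hpD
    refine ⟨some d, hdval, fun a => ⟨?_, ?_⟩⟩
    · intro ha d' hd'
      cases hd'
      by_contra hna
      apply h0
      have h1 : (x, y) ∈ (f (algQ.imp a bot)).1 := by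
        refine f_mono hU f hf ?_ hd
        rintro p ⟨hp, hpD⟩
        simp only [barB, Bool.or_eq_true, beq_iff_eq, Option.some.injEq] at hp
        rcases hp with hp | rfl
        · exact Or.inr hp
        · exact Or.inl ⟨hpD, hna⟩
      rcases (f_imp hU f hf _ _ _).mp h1 with h2 | h2
      · exact absurd ha h2.2
      · exact h2
    · intro h
      have hda := h d rfl
      refine f_mono hU f hf ?_ hd
      rintro p ⟨hp, hpD⟩
      simp only [barB, Bool.or_eq_true, beq_iff_eq, Option.some.injEq] at hp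
      rcases hp with hp | rfl
      · exact a.2.1 hp
      · exact hda

omit hf in
theorem lab_bar {x y : X} {o : Option P} (h : Lab f x y o) : (x, y) ∈ (f (bar o)).1 := by
  rw [h.2]
  intro d hd
  subst hd
  have := h.1
  simp only [ok, Bool.and_eq_true] at this
  exact ⟨by simp [barB], this.1⟩

theorem tri {x y z : X} {o₁ o₂ o₃ : Option P} (h₁ : Lab f x y o₁) (h₂ : Lab f y z o₂)
    (h₃ : Lab f x z o₃) : triB o₁ o₂ o₃ = true := by
  rcases o₃ with _ | d
  · rfl
  · have h := (f_comp hU f hf (bar o₁) (bar o₂) x z).mpr ⟨y, lab_bar f h₁, lab_bar f h₂⟩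
    rw [h₃.2] at h
    obtain ⟨_, m, h1, h2⟩ := h d rfl
    simp only [triB, compB, decide_eq_true_eq]
    exact ⟨m, h1.1, h2.1⟩

theorem wit {x z : X} {o₁ o₂ : Option P} {d : P} (h : Lab f x z (some d))
    (ho₁ : ok o₁ = true) (ho₂ : ok o₂ = true) (hd : compB o₁ o₂ d = true) :
    ∃ y, (∃ o₁', Lab f x y o₁' ∧ (o₁' = none ∨ o₁' = o₁)) ∧
      ∃ o₂', Lab f y z o₂' ∧ (o₂' = none ∨ o₂' = o₂) := by
  have hok := h.1
  simp only [ok, Bool.and_eq_true] at hok
  simp only [compB, decide_eq_true_eq] at hd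
  obtain ⟨m, hm1, hm2⟩ := hd
  have aux : ∀ (o : Option P) (p : P), ok o = true → barB o p = true → dB p = true := by
    intro o p ho hp
    simp only [barB, Bool.or_eq_true, beq_iff_eq] at hp
    rcases hp with hp | rfl
    · exact gB_dB p hp
    · simp only [ok, Bool.and_eq_true] at ho
      exact ho.1
  have hmem : (x, z) ∈ (f (algQ.comp (bar o₁) (bar o₂))).1 := by
    rw [h.2]
    intro d' hd'
    cases hd'
    exact ⟨hok.1, m, ⟨hm1, aux _ _ ho₁ hm1⟩, ⟨hm2, aux _ _ ho₂ hm2⟩⟩
  obtain ⟨y, hy1, hy2⟩ := (f_comp hU f hf _ _ _ _).mp hmem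
  have aux2 : ∀ (o : Option P) (a b : X), (a, b) ∈ (f (bar o)).1 →
      ∃ o', Lab f a b o' ∧ (o' = none ∨ o' = o) := by
    intro o a b hab
    obtain ⟨o', ho'⟩ := lab_exists hU f hf ((f (bar o)).2 hab)
    refine ⟨o', ho', ?_⟩
    rcases o' with _ | p
    · exact Or.inl rfl
    · right
      have hp := (ho'.2 (bar o)).mp hab p rfl
      have hv := ho'.1
      simp only [ok, Bool.and_eq_true, Bool.not_eq_true'] at hv
      have hp1 := hp.1
      simp only [barB, Bool.or_eq_true, beq_iff_eq] at hp1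
      rcases hp1 with h' | h'
      · rw [hv.2] at h'; exact absurd h' (by simp)
      · exact h'.symm
  exact ⟨y, aux2 _ _ _ hy1, aux2 _ _ _ hy2⟩

/-- the three decidable conditions that force a split -/
def splitB (a m b : Fin 11) : Bool :=
  ok (some (a, m)) && ok (some (m, b)) && !compB none none (a, b) &&
    !compB (some (a, m)) none (a, b) && !compB none (some (m, b)) (a, b)

theorem split {x z : X} (a m b : Fin 11) (h : Lab f x z (some (a, b)))
    (hs : splitB a m b = true) :
    ∃ y, Lab f x y (some (a, m)) ∧ Lab f y z (some (m, b)) := by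
  simp only [splitB, Bool.and_eq_true, Bool.not_eq_true'] at hs
  obtain ⟨⟨⟨⟨h1, h2⟩, h3⟩, h4⟩, h5⟩ := hs
  have hc : compB (some (a, m)) (some (m, b)) (a, b) = true := by
    simp only [compB, decide_eq_true_eq]
    exact ⟨m, by simp [barB], by simp [barB]⟩
  obtain ⟨y, ⟨o₁, ho₁, e₁⟩, ⟨o₂, ho₂, e₂⟩⟩ := wit hU f hf h h1 h2 hc
  have ht := tri hU f hf ho₁ ho₂ h
  simp only [triB] at ht
  rcases e₁ with rfl | rfl <;> rcases e₂ with rfl | rfl
  · rw [h3] at ht; exact absurd ht (by simp)
  · rw [h5] at ht; exact absurd ht (by simp)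
  · rw [h4] at ht; exact absurd ht (by simp)
  · exact ⟨y, ho₁, ho₂⟩

omit hf in
theorem lab_mem {x y : X} {o : Option P} (h : Lab f x y o) : (x, y) ∈ U :=
  (f (bar o)).2 (lab_bar f h)

theorem lab_none {x y : X} (h : (x, y) ∈ (f bot).1) : Lab f x y none :=
  ⟨rfl, fun a => ⟨fun _ d hd => by simp at hd, fun _ => f_mono hU f hf (a := bot) (b := a) a.2.1 h⟩⟩

end Rep

/-! ## The finite checks -/

def i06 : Option P := some (0, 6)

theorem factD : ∀ p : P, dB p = true →
    (∃ m, barB (some (2, 3)) (p.1, m) = true ∧ barB (some (3, 4)) (m, p.2) = true) →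
    ∃ m, gB (p.1, m) = true ∧ gB (m, p.2) = true := by decide +kernel

theorem fact1 : ∀ o : Option P, ok o = true → triB (some (2, 3)) (some (3, 6)) o = true →
    triB (some (0, 2)) o (some (0, 6)) = true → o = some (2, 6) := by decide +kernel

theorem fact2 : ∀ o : Option P, ok o = true → triB (some (1, 2)) (some (2, 6)) o = true →
    triB (some (0, 1)) o (some (0, 6)) = true → o = some (1, 6) := by decide +kernel

theorem fact3 : ∀ o : Option P, ok o = true → triB o (some (5, 6)) (some (0, 6)) = true →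
    ∀ o' : Option P, ok o' = true → triB (some (3, 4)) (some (4, 5)) o' = true →
    triB (some (0, 3)) o' o = true → o = some (0, 5) := by decide +kernel

theorem fact4 : ∀ o : Option P, ok o = true → triB (some (0, 1)) o (some (0, 5)) = true →
    triB o (some (5, 6)) (some (1, 6)) = true → o = some (1, 5) := by decide +kernel

/-- possible labels of `(l₁, y)` -/
def list1 : List (Option P) :=
  [none, some (0, 4), some (1, 4), some (2, 5), some (2, 6), some (0, 9), some (0, 10)]
/-- possible labels of `(l₂, y)` -/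
def list2 : List (Option P) :=
  [none, some (0, 4), some (1, 4), some (2, 5), some (2, 6), some (1, 9), some (1, 10)]
/-- possible labels of `(y, r₁)` -/
def list3 : List (Option P) :=
  [none, some (0, 4), some (1, 4), some (2, 5), some (2, 6), some (7, 5), some (8, 5)]
/-- possible labels of `(y, r₂)` -/
def list4 : List (Option P) :=
  [none, some (0, 4), some (1, 4), some (2, 5), some (2, 6), some (7, 6), some (8, 6)]

theorem fact5 : ∀ o : Option P, ok o = true → triB (some (0, 2)) none o = true → o ∈ list1 := by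
  decide +kernel
theorem fact6 : ∀ o : Option P, ok o = true → triB (some (1, 2)) none o = true → o ∈ list2 := by
  decide +kernel
theorem fact7 : ∀ o : Option P, ok o = true → triB none (some (4, 5)) o = true → o ∈ list3 := by
  decide +kernel
theorem fact8 : ∀ o : Option P, ok o = true → triB none (some (4, 6)) o = true → o ∈ list4 := by
  decide +kernel

theorem fact9 : ∀ t₁ ∈ list1, ∀ t₂ ∈ list2, triB (some (0, 1)) t₂ t₁ = true →
    ∀ p₁ ∈ list3, triB t₁ p₁ (some (0, 5)) = true → triB t₂ p₁ (some (1, 5)) = true →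
    ∀ p₂ ∈ list4, triB t₁ p₂ (some (0, 6)) = true → triB t₂ p₂ (some (1, 6)) = true → False := by
  decide +kernel

theorem notRep : ¬ Representable.{0, w} algQ := by
  rintro ⟨X, U, hU, f, hinj, hf⟩
  have hne : ∃ v v', Lab f v v' (some (0, 6)) := by
    by_contra hcon
    push Not at hcon
    have hEq : f (bar none) = f (bar (some (0, 6))) := by
      apply Subtype.ext
      ext ⟨v, v'⟩
      constructor
      · intro h
        refine f_mono hU f hf ?_ h
        rintro p ⟨hp, hpD⟩
        refine ⟨?_, hpD⟩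
        simp only [barB, Bool.or_eq_true] at hp ⊢
        rcases hp with hp | hp
        · exact Or.inl hp
        · exact absurd hp (by simp)
      · intro h
        obtain ⟨o, ho⟩ := lab_exists hU f hf ((f _).2 h)
        have h' := (ho.2 _).mp h
        rcases o with _ | p
        · exact (ho.2 _).mpr (fun d hd => by simp at hd)
        · exfalso
          have hp := (h' p rfl).1
          have hv := ho.1
          simp only [ok, Bool.and_eq_true, Bool.not_eq_true'] at hv
          simp only [barB, Bool.or_eq_true, beq_iff_eq, Option.some.injEq] at hp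
          rcases hp with hp | hp
          · rw [hv.2] at hp; exact absurd hp (by simp)
          · subst hp
            exact hcon v v' ho
    have h2 := hinj hEq
    have h3 : ((0, 6) : P) ∈ (bar (some (0, 6))).1 := by
      constructor <;> decide +kernel
    rw [← h2] at h3
    exact absurd h3.1 (by decide +kernel)
  obtain ⟨V, V', hVV'⟩ := hne
  obtain ⟨W, hVW, hWV'⟩ := split hU f hf 0 3 6 hVV' (by decide +kernel)
  obtain ⟨Xp, hVX, hXW⟩ := split hU f hf 0 2 3 hVW (by decide +kernel)
  obtain ⟨L, hVL, hLX⟩ := split hU f hf 0 1 2 hVX (by decide +kernel)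
  obtain ⟨Z, hWZ, hZV'⟩ := split hU f hf 3 4 6 hWV' (by decide +kernel)
  obtain ⟨R, hZR, hRV'⟩ := split hU f hf 4 5 6 hZV' (by decide +kernel)
  -- the point `y`
  have hXZ : (Xp, Z) ∈ (f (algQ.comp bot bot)).1 := by
    have h1 : (Xp, Z) ∈ (f (algQ.comp (bar (some (2, 3))) (bar (some (3, 4))))).1 :=
      (f_comp hU f hf _ _ _ _).mpr ⟨W, lab_bar f hXW, lab_bar f hWZ⟩
    refine f_mono hU f hf ?_ h1
    rintro p ⟨hpD, m, h2, h3⟩
    obtain ⟨m', h4, h5⟩ := factD p hpD ⟨m, h2.1, h3.1⟩
    exact ⟨hpD, m', h4, h5⟩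
  obtain ⟨y, hXy', hyZ'⟩ := (f_comp hU f hf _ _ _ _).mp hXZ
  have hXy := lab_none hU f hf hXy'
  have hyZ := lab_none hU f hf hyZ'
  -- labels along the chain
  obtain ⟨o, hXV⟩ := lab_exists hU f hf (hU _ _ _ (lab_mem f hXW) (lab_mem f hWV'))
  obtain rfl := fact1 o hXV.1 (tri hU f hf hXW hWV' hXV) (tri hU f hf hVX hXV hVV')
  obtain ⟨o, hLV⟩ := lab_exists hU f hf (hU _ _ _ (lab_mem f hLX) (lab_mem f hXV))
  obtain rfl := fact2 o hLV.1 (tri hU f hf hLX hXV hLV) (tri hU f hf hVL hLV hVV')
  obtain ⟨o', hWR⟩ := lab_exists hU f hf (hU _ _ _ (lab_mem f hWZ) (lab_mem f hZR))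
  obtain ⟨o, hVR⟩ := lab_exists hU f hf (hU _ _ _ (lab_mem f hVW) (lab_mem f hWR))
  obtain rfl := fact3 o hVR.1 (tri hU f hf hVR hRV' hVV') o' hWR.1 (tri hU f hf hWZ hZR hWR)
    (tri hU f hf hVW hWR hVR)
  obtain ⟨o, hLR⟩ := lab_exists hU f hf
    (hU _ _ _ (lab_mem f hLX) (hU _ _ _ (lab_mem f hXW) (lab_mem f hWR)))
  obtain rfl := fact4 o hLR.1 (tri hU f hf hVL hLR hVR) (tri hU f hf hLR hRV' hLV)
  obtain ⟨t₁, ht₁⟩ := lab_exists hU f hf (hU _ _ _ (lab_mem f hVX) (lab_mem f hXy))
  obtain ⟨t₂, ht₂⟩ := lab_exists hU f hf (hU _ _ _ (lab_mem f hLX) (lab_mem f hXy))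
  obtain ⟨p₁, hp₁⟩ := lab_exists hU f hf (hU _ _ _ (lab_mem f hyZ) (lab_mem f hZR))
  obtain ⟨p₂, hp₂⟩ := lab_exists hU f hf (hU _ _ _ (lab_mem f hyZ) (lab_mem f hZV'))
  exact fact9 t₁ (fact5 t₁ ht₁.1 (tri hU f hf hVX hXy ht₁))
    t₂ (fact6 t₂ ht₂.1 (tri hU f hf hLX hXy ht₂)) (tri hU f hf hVL ht₂ ht₁)
    p₁ (fact7 p₁ hp₁.1 (tri hU f hf hyZ hZR hp₁)) (tri hU f hf ht₁ hp₁ hVR)
    (tri hU f hf ht₂ hp₁ hLR)
    p₂ (fact8 p₂ hp₂.1 (tri hU f hf hyZ hZV' hp₂)) (tri hU f hf ht₁ hp₂ hVV')
    (tri hU f hf ht₂ hp₂ hLV)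

/-! ## Varieties and equations -/

theorem Tm.eval_hom {A : Type u} {B : Type v} {S : Alg A} {S' : Alg B} {h : A → B}
    (hh : IsHom S S' h) (v : ℕ → A) (t : Tm) : t.eval S' (h ∘ v) = h (t.eval S v) := by
  induction t with
  | var n => rfl
  | imp s t ih1 ih2 => simp only [Tm.eval, ih1, ih2, hh.imp]
  | comp s t ih1 ih2 => simp only [Tm.eval, ih1, ih2, hh.comp]

theorem models_image {A : Type u} {B : Type v} {S : Alg A} {S' : Alg B} {h : A → B}
    (hh : IsHom S S' h) (hs : Function.Surjective h) {E : Set (Tm × Tm)} (hE : S.Models E) :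
    S'.Models E := by
  intro e he v
  have : v = h ∘ (fun n => Function.surjInv hs (v n)) := by
    funext n
    exact (Function.surjInv_eq hs (v n)).symm
  rw [this, Tm.eval_hom hh, Tm.eval_hom hh, hE e he]

/-- lifting to a higher universe -/
def lift {A : Type} (S : Alg A) : Alg (ULift.{u} A) where
  imp a b := ⟨S.imp a.down b.down⟩
  comp a b := ⟨S.comp a.down b.down⟩

theorem lift_rep {A : Type} {S : Alg A} (h : FinRepresentable.{0, 0} S) :
    Representable.{u, w} (lift.{u} S) := by
  obtain ⟨X, T, hT, f, -, hf, hh⟩ := h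
  refine ⟨ULift.{w} X, {p | (p.1.down, p.2.down) ∈ T}, fun x y z h1 h2 => hT _ _ _ h1 h2,
    fun a => ⟨{p | (p.1.down, p.2.down) ∈ (f a.down).1}, fun p hp => (f a.down).2 hp⟩, ?_, ?_⟩
  · intro a b hab
    have h1 := congrArg Subtype.val hab
    have h2 : f a.down = f b.down := by
      apply Subtype.ext
      ext ⟨x, y⟩
      exact (Set.ext_iff.mp h1) (⟨x⟩, ⟨y⟩)
    exact ULift.ext _ _ (hf h2)
  · constructor
    · intro a b
      apply Subtype.ext
      ext p
      change (p.1.down, p.2.down) ∈ (f (S.imp a.down b.down)).1 ↔ _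
      rw [hh.imp]
      rfl
    · intro a b
      apply Subtype.ext
      ext p
      change (p.1.down, p.2.down) ∈ (f (S.comp a.down b.down)).1 ↔ _
      rw [hh.comp]
      constructor
      · rintro ⟨y, h1, h2⟩
        exact ⟨⟨y⟩, h1, h2⟩
      · rintro ⟨y, h1, h2⟩
        exact ⟨y.down, h1, h2⟩

theorem rep_of_lift {A : Type} {S : Alg A} (h : Representable.{u, w} (lift.{u} S)) :
    Representable.{0, w} S := by
  obtain ⟨X, T, hT, f, hf, hh⟩ := h
  exact ⟨X, T, hT, fun a => f ⟨a⟩, fun a b hab => congrArg ULift.down (hf hab),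
    ⟨fun a b => hh.imp ⟨a⟩ ⟨b⟩, fun a b => hh.comp ⟨a⟩ ⟨b⟩⟩⟩

/-- **The class of representable implication semigroups is not a variety.**  There are a finite
algebra with a representation on a finite set and a homomorphic image of it with no representation
at all; hence the class is not closed under homomorphic images, it is not a variety, and it is not
the class of all models of any set of equations. -/
theorem result :
    (∃ (A B : Type) (S : Alg A) (S' : Alg B) (h : A → B),
      Finite A ∧ FinRepresentable.{0, 0} S ∧ IsHom S S' h ∧ Function.Surjective h ∧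
        ¬ Representable.{0, w} S') ∧
    ¬ IsVariety.{u} (fun _ S => Representable.{u, w} S) ∧
    ∀ E : Set (Tm × Tm), ¬ ∀ (A : Type u) (S : Alg A), Representable.{u, w} S ↔ S.Models E := by
  have hl : IsHom (lift.{u} algA) (lift.{u} algQ) (fun a => ⟨hom a.down⟩) :=
    ⟨fun a b => congrArg ULift.up (hom_isHom.imp a.down b.down),
      fun a b => congrArg ULift.up (hom_isHom.comp a.down b.down)⟩
  have hs : Function.Surjective (fun a : ULift.{u} CA => (⟨hom a.down⟩ : ULift.{u} CQ)) := by
    rintro ⟨q⟩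
    obtain ⟨a, rfl⟩ := hom_surj q
    exact ⟨⟨a⟩, rfl⟩
  have hr := lift_rep.{u, w} algA_rep
  refine ⟨⟨CA, CQ, algA, algQ, hom, inferInstance, algA_rep, hom_isHom, hom_surj, notRep⟩, ?_, ?_⟩
  · intro h
    exact notRep (rep_of_lift (h.image _ _ _ _ _ hr hl hs))
  · intro E h
    exact notRep (rep_of_lift ((h _ _).mpr (models_image hl hs ((h _ _).mp hr))))

end Pool.Agent.Results.MP_390e14_lc.NotAVariety
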